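import Mathlib
import Pool.Agent.Lib.MP_88a170_gt.CodimB

open Set
open scoped Manifold

namespace Pool.Agent.Results.MP_88a170_gt.AnyCodimension

section
variable (E : Type*) {F M : Type*} [NormedAddCommGroup E] [NormedSpace ℝ E]
  [NormedAddCommGroup F] [NormedSpace ℝ F] [TopologicalSpace M] [ChartedSpace E M]

/-- `φ` is a map of class `C¹` whose differential is injective at every point. -/
def IsC1Immersion (φ : M → F) : Prop :=
  ContMDiff 𝓘(ℝ, E) 𝓘(ℝ, F) 1 φ ∧ ∀ m : M, Function.Injective (mvfderiv 𝓘(ℝ, E) φ m)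

/-- The image of the differential of `φ` at `m`. -/
noncomputable def tangentDirection (φ : M → F) (m : M) : Submodule ℝ F :=
  (mvfderiv 𝓘(ℝ, E) φ m).range

/-- The tangent plane at `m` of the surface `φ`: the affine plane through `φ m` whose direction is
the image of the differential of `φ` at `m`. -/
noncomputable def tangentPlane (φ : M → F) (m : M) : AffineSubspace ℝ F :=
  AffineSubspace.mk' (φ m) (tangentDirection E φ m)

/-- `γ`, on `[0, 1]`, is a stationary segment of the surface `φ`: a continuous path on the surface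
that runs along a straight segment from `x` to `y ≠ x` in space, with the same tangent plane at
all of its points. -/
def IsStationarySegment (φ : M → F) (γ : ℝ → M) : Prop :=
  ContinuousOn γ (Icc 0 1) ∧
    (∃ x y : F, x ≠ y ∧ ∀ t ∈ Icc (0 : ℝ) 1, φ (γ t) = (1 - t) • x + t • y) ∧
    ∀ s ∈ Icc (0 : ℝ) 1, ∀ t ∈ Icc (0 : ℝ) 1, tangentPlane E φ (γ s) = tangentPlane E φ (γ t)

/-- Every point outside `X` is an endpoint of a stationary segment. -/
def IsSemiTorseOff (X : Set M) (φ : M → F) : Prop :=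
  ∀ p : M, p ∉ X → ∃ γ : ℝ → M, IsStationarySegment E φ γ ∧ (γ 0 = p ∨ γ 1 = p)

/-- Every point is an interior point of a stationary segment. -/
def IsTorse (φ : M → F) : Prop :=
  ∀ p : M, ∃ γ : ℝ → M, IsStationarySegment E φ γ ∧ ∃ t ∈ Ioo (0 : ℝ) 1, γ t = p

end

/-- A surface of class `C¹` in a real normed space that is a semi-torse outside a countable set
is a torse. -/
theorem result {F : Type*} [NormedAddCommGroup F] [NormedSpace ℝ F]
    {M : Type*} [TopologicalSpace M] [ChartedSpace (EuclideanSpace ℝ (Fin 2)) M]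
    [IsManifold (𝓡 2) 1 M] (φ : M → F) (hφ : IsC1Immersion (EuclideanSpace ℝ (Fin 2)) φ)
    (X : Set M) (hX : X.Countable) (h : IsSemiTorseOff (EuclideanSpace ℝ (Fin 2)) X φ) :
    IsTorse (EuclideanSpace ℝ (Fin 2)) φ := by
  intro p
  obtain ⟨γ, v, hv, h0, hγ, hlin, hvr, hran⟩ :=
    Pool.Agent.Lib.MP_88a170_gt.Codim.surface hφ.1 hφ.2 hX
    (fun m hmX => by
      obtain ⟨γ, ⟨hγ, ⟨x, y, hxy, hlin⟩, htp⟩, hm⟩ := h m hmX
      have hdir : ∀ s ∈ Icc (0 : ℝ) 1, ∀ t ∈ Icc (0 : ℝ) 1,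
          (mvfderiv (𝓡 2) φ (γ s)).range = (mvfderiv (𝓡 2) φ (γ t)).range := by
        intro s hs t ht
        simpa [tangentPlane, tangentDirection] using congrArg AffineSubspace.direction (htp s hs t ht)
      have m0 : (0 : ℝ) ∈ Icc (0 : ℝ) 1 := ⟨le_rfl, zero_le_one⟩
      have m1 : (1 : ℝ) ∈ Icc (0 : ℝ) 1 := ⟨zero_le_one, le_rfl⟩
      rcases hm with rfl | rfl
      · refine ⟨γ, y - x, sub_ne_zero.2 hxy.symm, rfl, hγ, fun t ht => ?_,
          fun t ht => hdir t ht 0 m0⟩
        rw [hlin t ht, hlin 0 m0]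
        module
      · have hm : ∀ t ∈ Icc (0 : ℝ) 1, 1 - t ∈ Icc (0 : ℝ) 1 := fun t ht =>
          ⟨by linarith [ht.2], by linarith [ht.1]⟩
        refine ⟨fun t => γ (1 - t), x - y, sub_ne_zero.2 hxy, by simp,
          hγ.comp (by fun_prop) hm, fun t ht => ?_, fun t ht => hdir _ (hm t ht) 1 m1⟩
        rw [hlin _ (hm t ht), hlin 1 m1]
        module) p
  have hm : ∀ t ∈ Icc (0 : ℝ) 1, 2 * t - 1 ∈ Icc (-1 : ℝ) 1 := fun t ht =>
    ⟨by linarith [ht.1], by linarith [ht.2]⟩
  have htp : ∀ t ∈ Icc (-1 : ℝ) 1, tangentPlane (EuclideanSpace ℝ (Fin 2)) φ (γ t) =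
      tangentPlane (EuclideanSpace ℝ (Fin 2)) φ p := by
    intro t ht
    refine AffineSubspace.ext_of_direction_eq
      (by simpa [tangentPlane, tangentDirection] using hran t ht)
      ⟨φ (γ t), AffineSubspace.self_mem_mk' _ _, ?_⟩
    have : φ (γ t) -ᵥ φ p ∈ (mvfderiv (𝓡 2) φ p).range := by
      rw [hlin t ht, vsub_eq_sub, add_sub_cancel_left]
      exact Submodule.smul_mem _ _ hvr
    exact this
  refine ⟨fun t => γ (2 * t - 1), ⟨hγ.comp (by fun_prop) hm, ⟨φ p - v, φ p + v, ?_, ?_⟩, ?_⟩,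
    1 / 2, ⟨by norm_num, by norm_num⟩, by simpa using h0⟩
  · intro he
    have : (2 : ℝ) • v = 0 := by
      have h2 : (2 : ℝ) • v = (φ p + v) - (φ p - v) := by module
      rw [h2, he, sub_self]
    exact hv ((smul_eq_zero.1 this).resolve_left two_ne_zero)
  · intro t ht
    rw [hlin _ (hm t ht)]
    module
  · intro s hs t ht
    rw [htp _ (hm s hs), htp _ (hm t ht)]

end Pool.Agent.Results.MP_88a170_gt.AnyCodimension
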